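import Mathlib
import Pool.Agent.W223.AC.MasterK
import Pool.Agent.W223.AC.Split
import Pool.Agent.W976.AC.EX
import Pool.Agent.W460.AC.NORM
import Pool.Agent.W597.AC.LOC
import Pool.Agent.W193.AC.FINQ
import Pool.Agent.W398.AC.DIM
import Pool.Agent.W131.AC.GROW
import Pool.Agent.W989.AC.MULT
import Pool.Agent.W410.AC.HTG
import Pool.Agent.W803.AC.SUMN
import Pool.Agent.W756.AC.LOCP
import Pool.Agent.W223.AC.SUMP

/-!
# Vojta's inequality for the points of all curves above the elements of a number field

Let `X` be a smooth projective curve over a number field, `D` a reduced effective divisor on `X`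
and `t : X → ℙ¹` a finite map of degree `N` over `ℚ` which is unramified outside the fibres over
three rational points `a_0, a_1, a_2` and maps the points of `D` to the `a_j` (such a map exists by
Belyi's theorem; we may suppose that `a_j ≠ ∞`). Let `A` be the ring of functions on `X` with poles
only over `∞`: a Dedekind domain, finite over `ℚ[t]`. Let `y_{j 0} = t - a_j, y_{j 1}, …` be
generators of the radical of the ideal `(t - a_j)`, the ideal of the reduced fibre `F_j` over
`a_j`. Then `F = ∑ F_j ≥ D`, and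
`(deg K_X) / N = 1 - (∑_j dim (A / (y_{j 0}, y_{j 1}, …))) / N`.

The points `P` of `X` (not over `∞`) over a number field `L` are the homomorphisms `φ : A → L`, and
`λ_v(P) = ∑_j max(0, - log max_i |y_{j i}(P)|_v)` is a Weil function of `F` at `v`.

Let `K` be a number field of degree `d` and `2 < κ < 3`. We prove that for all `x ∈ K` outside a
set with `O(B ^ (d min(4 (3 - κ) / 7, 20 / 37) + δ))` elements of height at most `B` (there are about
`B ^ (2 d)` elements of `K` of height at most `B`), all number fields `L` which contain `K`, all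
points `P` of `X` over `L` with `t(P) = x` and all finite sets `S` of primes satisfy
`m_S(F, P) + (3 - κ - (∑_j dim (A / (y_{j 0}, y_{j 1}, …))) / N) h(x) ≤
d(L) + ∑_{p ∈ S} log p + C₀`.
-/

set_option autoImplicit false

namespace Pool.Agent.Results.MP_71c16a_nt.AllCurvesProximity

open Polynomial IsDedekindDomain NumberField

/-- The absolute logarithmic Weil height `h(x)`. -/
noncomputable def height {K : Type} [Field K] [NumberField K] (x : K) : ℝ :=
  (1 / (Module.finrank ℚ K : ℝ)) *
    ((∑ w : InfinitePlace K, (w.mult : ℝ) * Real.log (max 1 (w x))) +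
      ∑ᶠ v : HeightOneSpectrum (RingOfIntegers K), Real.log (max 1 (FinitePlace.mk v x)))

/-- the function `t` -/
noncomputable def coord (A : Type) [CommRing A] [Algebra ℚ[X] A] : A := algebraMap ℚ[X] A X

/-- `max (0, - log max_i c_i)` -/
noncomputable def minusLog {s : ℕ} (c : Fin (s + 1) → ℝ) : ℝ := max 0 (-Real.log (⨆ i, c i))

open Classical in
/-- The proximity function `m_S(F, P)`: the sum over the infinite places `w` (with
`mult w = [L_w : ℝ]`) and the primes `v` above the primes of `S` of the local heights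
`∑_j max (0, - log max_i |y_{j i}(P)|)`, divided by `[L : ℚ]`. The absolute values are normalised
so that the product formula holds: `|b|_v = N(v) ^ (- v(b))`. -/
noncomputable def proximity {A : Type} [CommRing A] (S : Finset ℕ)
    (u : Fin 3 → ℕ) (y : ∀ j, Fin (u j + 1) → A)
    (L : Type) [Field L] [NumberField L] (φ : A →+* L) : ℝ :=
  ((∑ w : InfinitePlace L, (w.mult : ℝ) * ∑ j, minusLog (fun i => w (φ (y j i)))) +
    ∑ᶠ v : HeightOneSpectrum (𝓞 L), if ∃ p ∈ S, (p : 𝓞 L) ∈ v.asIdeal then
      ∑ j, minusLog (fun i => FinitePlace.mk v (φ (y j i))) else 0) / Module.finrank ℚ L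

/-- The logarithmic discriminant `log |disc L| / [L : ℚ]`. -/
noncomputable def logDisc (L : Type) [Field L] [NumberField L] : ℝ :=
  Real.log |(NumberField.discr L : ℝ)| / Module.finrank ℚ L

/-- `3 - (∑_j dim (A / (y_{j 0}, y_{j 1}, …))) / N`, where `N` is the rank of `A` over `ℚ[t]`. -/
noncomputable def degree {A : Type} [CommRing A] [Algebra ℚ A] [Algebra ℚ[X] A]
    (u : Fin 3 → ℕ) (y : ∀ j, Fin (u j + 1) → A) : ℝ :=
  3 - (∑ j, (Module.finrank ℚ (A ⧸ Ideal.span (Set.range (y j))) : ℝ)) / Module.finrank ℚ[X] A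

/-- The elements `x` of `K` of height `exp h(x) ≤ B` over which there is a point `P = φ` of the
curve, defined over a number field `L` which contains `K`, such that
`m_S(F, P) + (degree - κ) h(x) ≤ d(L) + ∑_{p ∈ S} log p + C₀` fails for some finite set `S` of
primes. -/
def exceptional (K : Type) [Field K] [NumberField K] {A : Type} [CommRing A] [Algebra ℚ A]
    [Algebra ℚ[X] A] (u : Fin 3 → ℕ) (y : ∀ j, Fin (u j + 1) → A) (κ C₀ B : ℝ) : Set K :=
  {x | Real.exp (height x) ≤ B ∧ ∃ (L : Type) (_ : Field L) (_ : NumberField L) (_ : Algebra K L)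
    (φ : A →+* L) (S : Finset ℕ), φ (coord A) = algebraMap K L x ∧ (∀ p ∈ S, p.Prime) ∧
      logDisc L + ∑ p ∈ S, Real.log p + C₀ < proximity S u y L φ + (degree u y - κ) * height x}

open Classical in
lemma proximity_eq {A : Type} [CommRing A] (S : Finset ℕ)
    (u : Fin 3 → ℕ) (y : ∀ j, Fin (u j + 1) → A)
    (L : Type) [Field L] [NumberField L] (φ : A →+* L)
    (hf : ∀ j, {v : HeightOneSpectrum (𝓞 L) | Pool.Agent.W223.AC.lamF (y j) φ v ≠ 0}.Finite) :
    proximity S u y L φ = (∑ j, (∑ w : InfinitePlace L, (w.mult : ℝ) *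
      Pool.Agent.W223.AC.lamI (y j) φ w + Pool.Agent.W223.AC.mS S (y j) φ)) /
        Module.finrank ℚ L := by
  unfold proximity
  refine congrArg (fun t : ℝ => t / Module.finrank ℚ L) ?_
  rw [Finset.sum_add_distrib]
  congr 1
  · rw [Finset.sum_comm]
    refine Finset.sum_congr rfl fun w _ => ?_
    rw [Finset.mul_sum]
    rfl
  · unfold Pool.Agent.W223.AC.mS
    rw [← finsum_sum_comm]
    · refine finsum_congr fun v => ?_
      split_ifs
      · rfl
      · rw [Finset.sum_const_zero]
    · intro j _
      refine (hf j).subset fun v hv => ?_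
      rw [Function.mem_support] at hv
      intro h
      apply hv
      rw [h, ite_self]

/-- **Vojta's inequality for the points of all curves above the elements of a number field.** Let
`A` be a Dedekind domain, finite over `ℚ[t]` and containing it (the ring of functions of a smooth
affine curve which is finite over the `t`-line), of rank `N`, let `a_0, a_1, a_2` be distinct
rational numbers and `y_{j 0} = t - a_j, y_{j 1}, …, y_{j u_j}` elements of the radical of the ideal
`(t - a_j)`, for example generators. Let `K` be a number field of degree `d` and let `2 < κ < 3`,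
`C₀` and `δ > 0` be real. Then for all `B ≥ 1`, for all but
`C * B ^ (d min(4 (3 - κ) / 7, 20 / 37) + δ)` elements `x` of `K` of height at most `B`, all number
fields `L` containing `K`, all points `P` of the curve over `L` with `t(P) = x` and all finite
sets `S` of primes satisfy
`m_S(F, P) + (3 - κ - (∑_j dim (A / (y_{j 0}, y_{j 1}, …))) / N) h(x) ≤ d(L) + ∑_{p ∈ S} log p + C₀`.
-/
theorem result :
    ∀ (A : Type) [CommRing A] [IsDedekindDomain A] [Algebra ℚ A] [Algebra ℚ[X] A]
      [IsScalarTower ℚ ℚ[X] A] [Module.Finite ℚ[X] A] [FaithfulSMul ℚ[X] A]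
      (a : Fin 3 → ℚ), Function.Injective a →
    ∀ (u : Fin 3 → ℕ) (y : ∀ j, Fin (u j + 1) → A),
    (∀ j, y j 0 = coord A - algebraMap ℚ[X] A (C (a j))) →
    (∀ j i, y j i ∈ (Ideal.span {coord A - algebraMap ℚ[X] A (C (a j))}).radical) →
    ∀ (K : Type) [Field K] [NumberField K] (κ C₀ δ : ℝ), 2 < κ → κ < 3 → 0 < δ →
    ∃ C : ℝ, ∀ B : ℝ, 1 ≤ B → (exceptional K u y κ C₀ B).Finite ∧
      ((exceptional K u y κ C₀ B).ncard : ℝ) ≤
        C * B ^ ((Module.finrank ℚ K : ℝ) * min (4 * (3 - κ) / 7) (20 / 37) + δ) := by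
  classical
  intro A _ _ _ _ _ _ _ a ha u y hy0 hyr K _ _ κ C₀ δ hκ hκ3 hδ
  obtain ⟨ε, hε, hmas⟩ := Pool.Agent.W223.AC.MK.master K a ha κ δ hκ hκ3 hδ
  obtain ⟨M, Ck, G, hM, hCk, hG, hkey⟩ := Pool.Agent.W223.AC.keyG
    (Pool.Agent.W223.AC.nbp (Pool.Agent.W976.AC.EX.t Pool.Agent.W398.AC.DIM.t
      Pool.Agent.W193.AC.FINQ.t Pool.Agent.W989.AC.MULT.t) Pool.Agent.W756.AC.t
      (Pool.Agent.W410.AC.t Pool.Agent.W131.AC.t) Pool.Agent.W223.AC.SUMP.t
      Pool.Agent.W460.AC.t)
    Pool.Agent.W989.AC.MULT.t Pool.Agent.W597.AC.t A a (fun j : Fin 3 => j) u y hy0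
    (by
      intro k
      have h1 : (Finset.univ.filter fun l : Fin 3 => l = k) = {k} := by
        ext l
        simp
      rw [h1, Finset.prod_singleton, Ideal.span_le]
      rintro _ ⟨i, rfl⟩
      exact hyr k i) (ε / 3) (by positivity)
  have hSp : ∀ p ∈ (∅ : Finset ℕ) ∪ M.primeFactors, p.Prime := by
    intro p hp
    rcases Finset.mem_union.mp hp with h | h
    · exact absurd h (Finset.notMem_empty p)
    · exact Nat.prime_of_mem_primeFactors h
  obtain ⟨C, hB⟩ := hmas (∅ ∪ M.primeFactors) hSp (C₀ - 3 * Ck) G hG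
  refine ⟨C, fun B hB1 => ?_⟩
  obtain ⟨h1, h2⟩ := hB B hB1
  have hsub : exceptional K u y κ C₀ B ⊆
      Pool.Agent.W223.AC.MK.exc K (∅ ∪ M.primeFactors) a (κ - ε) (C₀ - 3 * Ck) B G := by
    rintro x ⟨hh, L, hLF, hLN, hLA, φ, S, hφ, hS, hv⟩
    refine ⟨hh, ?_⟩
    by_cases hGx : aeval x G = 0
    · exact Or.inl hGx
    by_cases hxa : ∃ j, x = (a j : K)
    · exact Or.inr (Or.inl hxa)
    push Not at hxa
    refine Or.inr (Or.inr ⟨L, hLF, hLN, hLA, ?_⟩)
    have hne : ∀ k, φ (coord A) ≠ (a k : L) := by
      intro k h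
      rw [hφ] at h
      apply hxa k
      apply FaithfulSMul.algebraMap_injective K L
      rw [h, map_ratCast]
    have hGL : aeval (φ (coord A)) G ≠ 0 := by
      rw [hφ, aeval_algebraMap_apply]
      intro h
      rw [map_eq_zero] at h
      exact hGx h
    obtain ⟨hk1, hk2⟩ := hkey L φ hGL hne
    have hz0 : ∀ l, φ (y l 0) ≠ 0 := by
      intro l
      rw [hy0 l, map_sub]
      have : φ (algebraMap ℚ[X] A (Polynomial.C (a l))) = (a l : L) :=
        eq_ratCast (φ.comp ((algebraMap ℚ[X] A).comp Polynomial.C)) (a l)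
      rw [this]
      exact sub_ne_zero.mpr (hne l)
    have hnf : ∀ l, {v : HeightOneSpectrum (𝓞 L) | Pool.Agent.W223.AC.NearP (y l) φ v}.Finite :=
      fun l => Pool.Agent.W223.AC.near_finite (y l) φ (hz0 l)
    have hk1 := (hk1 ∅).trans ((Pool.Agent.W223.AC.cc_outside Pool.Agent.W803.AC.t S hS _ (by
        refine (Set.finite_iUnion fun l => hnf l).subset ?_
        rintro v ⟨l, -, hv⟩
        exact Set.mem_iUnion.mpr ⟨l, hv⟩)).trans
      (add_le_add_left (Pool.Agent.W223.CV.cc_exists S Finset.univ
        (fun l (v : HeightOneSpectrum (𝓞 L)) => Pool.Agent.W223.AC.NearP (y l) φ v) hnf) _))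
    have hLpos : (0 : ℝ) < Module.finrank ℚ L := by exact_mod_cast Module.finrank_pos
    -- the height over `L`
    have hht : Real.log (Height.mulHeight₁ (φ (coord A))) = Module.finrank ℚ L * height x := by
      have h3 : Real.log (Height.mulHeight₁ (algebraMap K L x)) =
          Module.finrank K L * Real.log (Height.mulHeight₁ x) :=
        Pool.Agent.W223.AC.MK.log_height_ext L x
      have h4 : Real.log (Height.mulHeight₁ x) = Module.finrank ℚ K * height x :=
        Pool.Agent.W223.AC.MK.height_eq x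
      rw [hφ, h3, h4, ← mul_assoc, mul_comm (Module.finrank K L : ℝ)]
      congr 1
      exact_mod_cast Module.finrank_mul_finrank ℚ K L
    rw [proximity_eq S u y L φ fun j => (hk2 j).1] at hv
    -- the sum over the fibres
    have h5 : ∀ l, Pool.Agent.W223.CV.cc S (fun v : HeightOneSpectrum (𝓞 L) =>
          Pool.Agent.W223.AC.NearP (y l) φ v) +
        (∑ w : InfinitePlace L, (w.mult : ℝ) * Pool.Agent.W223.AC.lamI (y l) φ w +
          Pool.Agent.W223.AC.mS S (y l) φ) ≤
        ((Module.finrank ℚ (A ⧸ Ideal.span (Set.range (y l))) : ℝ) /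
            Module.finrank ℚ[X] A + ε / 3) * (Module.finrank ℚ L * height x) +
          Module.finrank ℚ L * Ck := by
      intro l
      obtain ⟨h6, h7⟩ := hk2 l
      have h8 := Pool.Agent.W223.AC.split_prox (y l) φ S (hz0 l) h6
      have h9 : Real.log (Height.mulHeight₁ (φ (Pool.Agent.W223.AC.tt A))) =
        Module.finrank ℚ L * height x := hht
      rw [h9] at h7
      linarith
    have h6 := Finset.sum_le_sum fun l (_ : l ∈ Finset.univ) => h5 l
    rw [Finset.sum_add_distrib] at h6
    have h7 : ∑ l, (((Module.finrank ℚ (A ⧸ Ideal.span (Set.range (y l))) : ℝ) /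
            Module.finrank ℚ[X] A + ε / 3) * (Module.finrank ℚ L * height x) +
          Module.finrank ℚ L * Ck) =
        (3 - degree u y + ε) * height x * Module.finrank ℚ L + 3 * Ck * Module.finrank ℚ L := by
      rw [Finset.sum_add_distrib, ← Finset.sum_mul, Finset.sum_add_distrib, ← Finset.sum_div,
        Finset.sum_const, Finset.sum_const, Finset.card_univ, Fintype.card_fin, nsmul_eq_mul,
        nsmul_eq_mul]
      unfold degree
      push_cast
      ring
    rw [h7] at h6
    have e7 : logDisc L = Real.log |(discr L : ℝ)| / Module.finrank ℚ L := rfl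
    rw [e7] at hv
    have h8 : Pool.Agent.W223.VD.cnt (∅ ∪ M.primeFactors)
        (fun k => Pool.Agent.W223.AC.pt (a k)) (φ (coord A)) / Module.finrank ℚ L +
        (∑ j, (∑ w : InfinitePlace L, (w.mult : ℝ) * Pool.Agent.W223.AC.lamI (y j) φ w +
          Pool.Agent.W223.AC.mS S (y j) φ)) / Module.finrank ℚ L ≤
        (3 - degree u y + ε) * height x + 3 * Ck + ∑ p ∈ S, Real.log p := by
      rw [← add_div, div_le_iff₀ hLpos, add_mul ((3 - degree u y + ε) * height x + 3 * Ck),
        add_mul ((3 - degree u y + ε) * height x)]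
      have h9 : Pool.Agent.W223.VD.cnt (∅ ∪ M.primeFactors)
        (fun k => Pool.Agent.W223.AC.pt (a k)) (φ (coord A)) ≤
          ∑ l, Pool.Agent.W223.CV.cc S (fun v : HeightOneSpectrum (𝓞 L) =>
          Pool.Agent.W223.AC.NearP (y l) φ v) +
            Module.finrank ℚ L * ∑ p ∈ S, Real.log p := hk1
      linarith
    rw [hφ] at h8
    have h11 : ((3 : ℝ) - (κ - ε)) * height x =
        (degree u y - κ) * height x + (3 - degree u y + ε) * height x := by ring
    have h12 : Pool.Agent.Results.MP_f5a5f7_nt.FewExceptions.height x = height x := rfl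
    rw [h12, h11]
    linarith
  refine ⟨h1.subset hsub, ?_⟩
  refine le_trans ?_ h2
  exact_mod_cast Set.ncard_le_ncard hsub h1

end Pool.Agent.Results.MP_71c16a_nt.AllCurvesProximity
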