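import Pool.Agent.W180.TP.Hyp2

set_option autoImplicit false

/-!
# Vojta's inequality without discriminant for algebraic points with few places above `S`

`X = ℙⁿ` over a number field `K` and `D` is a sum of hyperplanes over `K` in general position.
-/

namespace Pool.Agent.Results.MP_71c16a_nt.FewPlacesHyperplanes

open NumberField IsDedekindDomain

/-- The value at the point with homogeneous coordinates `x` of the linear form with
coefficients `a`. -/
noncomputable def value {K L : Type} [Field K] [Field L] [Algebra K L] {n : ℕ}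
    (a : Fin (n + 1) → K) (x : Fin (n + 1) → L) : L := ∑ j, algebraMap K L (a j) * x j

/-- The local height of the hyperplane with equation `a` at the point with homogeneous
coordinates `x`, for the absolute value `f` of `L`. -/
noncomputable def weil {K L : Type} [Field K] [Field L] [Algebra K L] {n : ℕ} (f : L → ℝ)
    (a : Fin (n + 1) → K) (x : Fin (n + 1) → L) : ℝ :=
  Real.log ((⨆ j, f (x j)) / f (value a x))

/-- The proximity function `m_{T,D}(x)`, with absolute normalisation, of the sum `D` of the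
hyperplanes with equations `l i`, where `T` consists of the archimedean places in `T₁` and the
primes in `T₂`. -/
noncomputable def proximity {K L : Type} [Field K] [Field L] [NumberField L] [Algebra K L]
    {n q : ℕ} (T₁ : Finset (InfinitePlace L)) (T₂ : Finset (HeightOneSpectrum (𝓞 L)))
    (l : Fin q → Fin (n + 1) → K) (x : Fin (n + 1) → L) : ℝ :=
  ((∑ w ∈ T₁, w.mult * ∑ i, weil w (l i) x) +
    ∑ v ∈ T₂, ∑ i, weil (FinitePlace.mk v) (l i) x) / Module.finrank ℚ L

/-- The absolute logarithmic height. -/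
noncomputable def height {L : Type} [Field L] [NumberField L] {n : ℕ}
    (x : Fin (n + 1) → L) : ℝ :=
  Height.logHeight x / Module.finrank ℚ L

/-- Let `K` be a number field, `n ≥ 1`, and `D` the sum of `q` hyperplanes over `K` in general
position in `ℙⁿ`. There is a finite union `Z` of hyperplanes over `K` such that for every `s`
there is a constant `C` with `m_{T,D}(x) ≤ (n + 1) max(1, s/2) h(x) + C` for every number field
`L ⊇ K`, every set `T` of at most `s` places of `L` and every `x ∈ ℙⁿ(L)` off `D` and `Z`. In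
particular (`s = 2`) `m_{S,D}(x) ≤ (n + 1) h(x) + C` for all algebraic points `x` off `D` and `Z`,
of any degree, such that `K(x)` has at most two places above `S`. -/
theorem result (K : Type) [Field K] [NumberField K] (n q : ℕ) (hn : 1 ≤ n)
    (l : Fin q → Fin (n + 1) → K)
    (hl : ∀ I : Finset (Fin q), I.card ≤ n + 1 → LinearIndependent K (fun i : I => l i)) :
    ∃ Z : Finset (Fin (n + 1) → K), (∀ a ∈ Z, a ≠ 0) ∧ ∀ s : ℕ, ∃ C : ℝ,
      ∀ (L : Type) [Field L] [NumberField L] [Algebra K L] (T₁ : Finset (InfinitePlace L))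
        (T₂ : Finset (HeightOneSpectrum (𝓞 L))), T₁.card + T₂.card ≤ s →
        ∀ x : Fin (n + 1) → L, x ≠ 0 → (∀ i, value (l i) x ≠ 0) → (∀ a ∈ Z, value a x ≠ 0) →
          proximity T₁ T₂ l x ≤ (n + 1) * max 1 ((s : ℝ) / 2) * height x + C := by
  classical
  have hval : ∀ (L : Type) [Field L] [Algebra K L] (a : Fin (n + 1) → K) (x : Fin (n + 1) → L),
      value a x = MvPolynomial.aeval x (Pool.Agent.W180.TP.lf a) := fun L _ _ a x =>
    (Pool.Agent.W180.TP.aeval_lf a x).symm
  have hweil : ∀ (L : Type) [Field L] [Algebra K L] (f : AbsoluteValue L ℝ)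
      (a : Fin (n + 1) → K) (x : Fin (n + 1) → L), weil f a x =
      Pool.Agent.W180.OP.lam f 1 (Pool.Agent.W180.OP.bc L (Pool.Agent.W180.TP.lf a)) x := by
    intro L _ _ f a x
    unfold weil Pool.Agent.W180.OP.lam
    rw [Pool.Agent.W180.OP.eval_bc, hval, pow_one]
    rfl
  have hprox : ∀ (L : Type) [Field L] [NumberField L] [Algebra K L]
      (T₁ : Finset (InfinitePlace L)) (T₂ : Finset (HeightOneSpectrum (𝓞 L)))
      (x : Fin (n + 1) → L),
      proximity T₁ T₂ l x = (∑ p ∈ (T₁.disjSum T₂ : Finset (Pool.Agent.W180.OP.Pl L)),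
        Pool.Agent.W180.OP.wt p * ∑ i, Pool.Agent.W180.OP.lam (Pool.Agent.W180.OP.av p) 1
          (Pool.Agent.W180.OP.bc L (Pool.Agent.W180.TP.lf (l i))) x) / Module.finrank ℚ L := by
    intro L _ _ _ T₁ T₂ x
    unfold proximity
    rw [Finset.sum_disjSum]
    congr 2
    · refine Finset.sum_congr rfl fun w _ => ?_
      congr 1
      exact Finset.sum_congr rfl fun i _ => hweil L w.1 (l i) x
    · refine Finset.sum_congr rfl fun v _ => ?_
      show _ = (1 : ℝ) * _
      rw [one_mul]
      exact Finset.sum_congr rfl fun i _ => hweil L (Pool.Agent.W180.OP.fv v) (l i) x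
  obtain ⟨Z, C, hZ, hC0, hC⟩ := Pool.Agent.W180.TP.hyp_main (n := n + 1) (by omega) l hl
  choose! a ha0 ha using hZ
  refine ⟨Z.image a, ?_, fun s => ⟨C * (s + 1), ?_⟩⟩
  · intro b hb
    obtain ⟨M, hM, rfl⟩ := Finset.mem_image.1 hb
    exact ha0 M hM
  intro L _ _ _ T₁ T₂ hT x hx hlx hZx
  have hN : (0 : ℝ) < Module.finrank ℚ L := by exact_mod_cast Module.finrank_pos
  have h1 := hC L (T₁.disjSum T₂) x hx (fun i => by rw [← hval]; exact hlx i) (fun M hM => by
    have := hZx (a M) (Finset.mem_image_of_mem a hM)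
    rw [hval, ← ha M hM] at this
    exact this)
  have hcard : (T₁.disjSum T₂ : Finset (Pool.Agent.W180.OP.Pl L)).card = T₁.card + T₂.card :=
    Finset.card_disjSum _ _
  rw [hcard] at h1
  have hs : ((T₁.card + T₂.card : ℕ) : ℝ) ≤ s := by exact_mod_cast hT
  have hh := Height.logHeight_nonneg x
  have h2 : max 1 (((T₁.card + T₂.card : ℕ) : ℝ) / 2) ≤ max 1 ((s : ℝ) / 2) :=
    max_le_max le_rfl (by linarith)
  have h3 : ((n + 1 : ℕ) : ℝ) * max 1 (((T₁.card + T₂.card : ℕ) : ℝ) / 2) *
      Height.logHeight x ≤ ((n + 1 : ℕ) : ℝ) * max 1 ((s : ℝ) / 2) * Height.logHeight x :=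
    mul_le_mul_of_nonneg_right (mul_le_mul_of_nonneg_left h2 (Nat.cast_nonneg _)) hh
  have h4 : C * (((T₁.card + T₂.card : ℕ) : ℝ) + 1) * Module.finrank ℚ L ≤
      C * (s + 1) * Module.finrank ℚ L :=
    mul_le_mul_of_nonneg_right (mul_le_mul_of_nonneg_left (by linarith) hC0) hN.le
  rw [hprox, height, div_le_iff₀ hN]
  refine (h1.trans (add_le_add h3 h4)).trans (le_of_eq ?_)
  push_cast
  field_simp

end Pool.Agent.Results.MP_71c16a_nt.FewPlacesHyperplanes
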