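import Mathlib
import Pool.Agent.W231.V.Core2

set_option autoImplicit false

/-!
# Vojta's inequality for quadratic points: the exceptional set depends on `ε`

`k = ℚ`, `X = ℙ^n` with `n ≥ 2`, `D` the sum of `q ≥ n + 2` hyperplanes in general position over
`ℚ`, `S` the archimedean place and at least one prime. The points are the points of `ℙ^n` of
degree exactly `2`.
-/

namespace Pool.Agent.Results.MP_71c16a_nt.QuadraticExceptional

open NumberField IsDedekindDomain

variable {L : Type} [Field L] [NumberField L] {n q : ℕ}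

/-- The local Weil function of the hyperplane `∑ j, l j * X j = 0` (with rational coefficients) at
the point with homogeneous coordinates `x` over `L`, for the absolute value `a` of `L`. -/
noncomputable def weil (a : L → ℝ) (l : Fin (n + 1) → ℚ) (x : Fin (n + 1) → L) : ℝ :=
  Real.log ((⨆ j, a (algebraMap ℚ L (l j))) * (⨆ j, a (x j)) /
    a (∑ j, algebraMap ℚ L (l j) * x j))

/-- The proximity function `∑_{ν ∈ S} λ_D(x, ν)`, with absolute normalisation, where `S` consists
of the archimedean place of `ℚ` and of the primes in `S`: the sum over all infinite places of `L`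
and over the primes of `L` above the primes in `S`, divided by `[L : ℚ]`. -/
noncomputable def proximity (S : Finset ℕ) (H : Fin q → Fin (n + 1) → ℚ)
    (x : Fin (n + 1) → L) : ℝ :=
  ((∑ w : InfinitePlace L, w.mult * ∑ i, weil w (H i) x) +
    ∑ᶠ v ∈ {v : HeightOneSpectrum (𝓞 L) | ∃ p ∈ S, (p : 𝓞 L) ∈ v.asIdeal},
      ∑ i, weil (FinitePlace.mk v) (H i) x) / Module.finrank ℚ L

/-- The absolute logarithmic height. -/
noncomputable def height (x : Fin (n + 1) → L) : ℝ :=
  Height.logHeight x / Module.finrank ℚ L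

/-- Let `D` be the sum of `q ≥ n + 2` hyperplanes of `ℙ^n`, `n ≥ 2`, in general position over `ℚ`,
let `S` contain the archimedean place and at least one prime, and let `G` be a nonzero form of
degree `δ` over `ℚ`. If Vojta's inequality
`h_K(x) + ∑_{ν ∈ S} λ_D(x, ν) ≤ ε h(x) + d(x) + C`, with `h_K = -(n + 1) h`, holds for all points
`x` of `ℙ^n` of degree exactly `2` over `ℚ`, off `D` and off the zero set of `G`, then
`∑_{2 ≤ b ≤ B} b φ(b) ≤ δ` for every `B` with `ε B < 1`. -/
theorem result (n q : ℕ) (hn : 2 ≤ n) (hq : n + 2 ≤ q) (H : Fin q → Fin (n + 1) → ℚ)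
    (hH : ∀ I : Finset (Fin q), I.card = n + 1 → LinearIndependent ℚ (fun i : I => H i))
    (S : Finset ℕ) (hS : ∀ p ∈ S, p.Prime) (hS0 : S.Nonempty)
    (G : MvPolynomial (Fin (n + 1)) ℚ) (δ : ℕ) (hG : G ≠ 0) (hGδ : G.IsHomogeneous δ) (ε C : ℝ)
    (hV : ∀ (L : Type) [Field L] [NumberField L], Module.finrank ℚ L = 2 →
      ∀ x : Fin (n + 1) → L, (∃ i j, x j ≠ 0 ∧ x i / x j ∉ Set.range (algebraMap ℚ L)) →
        (∀ i, ∑ j, algebraMap ℚ L (H i j) * x j ≠ 0) → MvPolynomial.aeval x G ≠ 0 →
        -(n + 1) * height x + proximity S H x ≤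
          ε * height x + Real.log |(discr L : ℝ)| / 2 + C)
    (B : ℕ) (hB : ε * B < 1) : ∑ b ∈ Finset.Icc 2 B, b * b.totient ≤ δ := by
  classical
  by_contra hlt
  push Not at hlt
  obtain ⟨p, hp⟩ := hS0
  obtain ⟨L, iF, iN, x, hfin, hx, hne, hGx, hU⟩ := Pool.Agent.W231.V.core2 hn H hH
    (by rwa [Fintype.card_fin]) G hG hGδ B hlt hB (2 * C) (hS p hp)
  have h1 := hV L hfin x hx hne hGx
  -- the primes above `S`
  have hset : {v : HeightOneSpectrum (𝓞 L) | ∃ p ∈ S, (p : 𝓞 L) ∈ v.asIdeal}.Finite := by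
    have hsub : {v : HeightOneSpectrum (𝓞 L) | ∃ p ∈ S, (p : 𝓞 L) ∈ v.asIdeal} ⊆
        ⋃ p ∈ S, {v : HeightOneSpectrum (𝓞 L) | Pool.Agent.W231.V.fv v (p : L) ≠ 1} := by
      rintro v ⟨p', hp', hv⟩
      simp only [Set.mem_iUnion]
      refine ⟨p', hp', ?_⟩
      have h2 := (FinitePlace.norm_lt_one_iff_mem L v (p' : 𝓞 L)).2 hv
      rw [map_natCast] at h2
      exact h2.ne
    exact (Set.Finite.biUnion S.finite_toSet fun p' hp' => Pool.Agent.W231.V.fv_support_finite
      (Nat.cast_ne_zero.2 (hS p' hp').ne_zero)).subset hsub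
  have h2 := hU hset.toFinset (by
    intro v hv
    rw [Set.Finite.mem_toFinset] at hv
    have hv' : (p : 𝓞 L) ∉ v.asIdeal := fun h => hv ⟨p, hp, h⟩
    have h3 := (FinitePlace.norm_eq_one_iff_notMem L v (p : 𝓞 L)).2 hv'
    rw [map_natCast] at h3
    exact h3)
  -- the proximity function
  have hweil : ∀ (f : AbsoluteValue L ℝ) (i : Fin q), weil f (H i) x =
      Real.log (⨆ j, f (algebraMap ℚ L (H i j))) + Real.log (⨆ j, f (x j)) -
        Real.log (f (∑ j, algebraMap ℚ L (H i j) * x j)) := by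
    intro f i
    obtain ⟨i', j', hj', -⟩ := hx
    obtain ⟨j, hj⟩ : ∃ j, algebraMap ℚ L (H i j) ≠ 0 := by
      by_contra hc
      push Not at hc
      exact hne i (Finset.sum_eq_zero fun j _ => by rw [hc, zero_mul])
    have p1 : 0 < ⨆ j, f (algebraMap ℚ L (H i j)) := (f.pos_iff.2 hj).trans_le
      (le_ciSup (f := fun j => f (algebraMap ℚ L (H i j))) (Set.finite_range _).bddAbove j)
    have p2 : 0 < ⨆ j, f (x j) := (f.pos_iff.2 hj').trans_le
      (le_ciSup (f := fun j => f (x j)) (Set.finite_range _).bddAbove j')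
    rw [weil, Real.log_div (mul_pos p1 p2).ne' (f.pos_iff.2 (hne i)).ne', Real.log_mul p1.ne' p2.ne']
  have hprox : proximity S H x = (∑ i, (Pool.Agent.W231.V.LamSup hset.toFinset
      (fun j => algebraMap ℚ L (H i j)) + Pool.Agent.W231.V.LamSup hset.toFinset x -
      Pool.Agent.W231.V.Lam hset.toFinset (∑ j, algebraMap ℚ L (H i j) * x j))) / 2 := by
    unfold proximity
    rw [hfin, finsum_mem_eq_finite_toFinset_sum _ hset]
    push_cast
    congr 1
    have e1 : ∀ w : InfinitePlace L, (w.mult : ℝ) * ∑ i, weil w (H i) x =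
        ∑ i, (w.mult * Real.log (⨆ j, w (algebraMap ℚ L (H i j))) +
          w.mult * Real.log (⨆ j, w (x j)) -
          w.mult * Real.log (w (∑ j, algebraMap ℚ L (H i j) * x j))) := by
      intro w
      rw [Finset.mul_sum]
      refine Finset.sum_congr rfl fun i _ => ?_
      have := hweil w.1 i
      have h' : weil w (H i) x = weil w.1 (H i) x := rfl
      rw [h', this]
      have h'' : ∀ y : L, w.1 y = w y := fun _ => rfl
      simp only [h'']
      ring
    have e2 : ∀ v : HeightOneSpectrum (𝓞 L), ∑ i, weil (FinitePlace.mk v) (H i) x =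
        ∑ i, (Real.log (⨆ j, Pool.Agent.W231.V.fv v (algebraMap ℚ L (H i j))) +
          Real.log (⨆ j, Pool.Agent.W231.V.fv v (x j)) -
          Real.log (Pool.Agent.W231.V.fv v (∑ j, algebraMap ℚ L (H i j) * x j))) :=
      fun v => Finset.sum_congr rfl fun i _ => hweil (Pool.Agent.W231.V.fv v) i
    rw [Finset.sum_congr rfl fun w _ => e1 w, Finset.sum_congr rfl fun v _ => e2 v,
      Finset.sum_comm, Finset.sum_comm (s := hset.toFinset), ← Finset.sum_add_distrib]
    refine Finset.sum_congr rfl fun i _ => ?_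
    unfold Pool.Agent.W231.V.LamSup Pool.Agent.W231.V.Lam
    simp only [Finset.sum_add_distrib, Finset.sum_sub_distrib]
    ring
  rw [hprox] at h1
  unfold height at h1
  rw [hfin] at h1
  push_cast at h1
  linarith

end Pool.Agent.Results.MP_71c16a_nt.QuadraticExceptional
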