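import Pool.Agent.W225.V.Final

set_option autoImplicit false

/-!
Vojta's inequality on `ℙ^N` over `ℚ`, `N ≥ 2`, with respect to an arbitrary strict normal crossings
divisor: the rational points at which it fails are fewer than the rational points of a hyperplane.
-/

namespace Pool.Agent.Results.MP_71c16a_nt.RationalPointsSnc

open Pool.Agent.W225

/-- `x` is a primitive integer vector; every rational point of `ℙ^N` is represented by exactly two
of them, `x` and `-x` -/
def IsPrimitive {N : ℕ} (x : Fin (N + 1) → ℤ) : Prop :=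
  Finset.univ.gcd x = 1

/-- `max |x_i|`, the multiplicative height of the point given by a primitive `x` -/
def height {N : ℕ} (x : Fin (N + 1) → ℤ) : ℕ :=
  Finset.univ.sup (fun i => (x i).natAbs)

/-- The divisor `D = ∑ {F j = 0}` of `ℙ^N` has strict normal crossings: for every field `L` of
characteristic zero and every point of `ℙ^N(L)`, with coordinate vector `x`, the gradients at `x` of
the `F j` that vanish at `x` are linearly independent over `L`. (So the components are smooth and
meet transversally.) -/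
def StrictNormalCrossings {N : ℕ} {J : Type} (F : J → MvPolynomial (Fin (N + 1)) ℤ) : Prop :=
  ∀ (L : Type) [Field L] [CharZero L] (x : Fin (N + 1) → L), x ≠ 0 →
    LinearIndependent L (fun (j : {j : J // MvPolynomial.aeval x (F j) = 0}) (i : Fin (N + 1)) =>
      MvPolynomial.aeval x (MvPolynomial.pderiv i (F j)))

/-- The proximity function `m_{S,D}(x)` of `D = ∑ {F j = 0}`, where `F j` has degree `d j`, for the
places `∞` and `p ∈ S`, at a primitive `x` with all `F j x ≠ 0`: the local height at `∞` is
`∑ log (max |x_i| ^ d j / |F j x|)`, the local height at `p` is `∑ log (1 / |F j x|_p)`. -/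
noncomputable def proximity {N : ℕ} {J : Type} [Fintype J] (F : J → MvPolynomial (Fin (N + 1)) ℤ)
    (d : J → ℕ) (S : Finset ℕ) (x : Fin (N + 1) → ℤ) : ℝ :=
  ∑ j, (Real.log ((height x : ℝ) ^ d j / |((MvPolynomial.eval x (F j) : ℤ) : ℝ)|) +
    ∑ p ∈ S, (padicValInt p (MvPolynomial.eval x (F j)) : ℝ) * Real.log p)

/-- The exceptional points of height at most `B` of Vojta's inequality
`m_{S,D}(x) + h_K(x) ≤ ε h(x) + c`, where `K = -(N + 1) H` is the canonical class of `ℙ^N`. -/
def exceptional {N : ℕ} {J : Type} [Fintype J] (F : J → MvPolynomial (Fin (N + 1)) ℤ)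
    (d : J → ℕ) (S : Finset ℕ) (ε c B : ℝ) : Set (Fin (N + 1) → ℤ) :=
  {x | IsPrimitive x ∧ (height x : ℝ) ≤ B ∧ (∀ j, MvPolynomial.eval x (F j) ≠ 0) ∧
    ε * Real.log (height x) + c < proximity F d S x - (N + 1) * Real.log (height x)}

/-- **Main theorem.** -/
theorem result (N : ℕ) (hN : 2 ≤ N) {J : Type} [Fintype J]
    (F : J → MvPolynomial (Fin (N + 1)) ℤ) (d : J → ℕ) (hd : ∀ j, 1 ≤ d j)
    (hF : ∀ j, (F j).IsHomogeneous (d j)) (hsnc : StrictNormalCrossings F) (S : Finset ℕ)
    (hS : ∀ p ∈ S, p.Prime) (ε c : ℝ) (hε : 0 < ε) :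
    ∃ C : ℝ, 0 < C ∧ ∀ B : ℝ, 1 ≤ B →
      (exceptional F d S ε c B).Finite ∧
      ((exceptional F d S ε c B).ncard : ℝ) ≤ C * B ^ ((N : ℝ) - 1 / (2 * ∑ j, (d j : ℝ))) := by
  classical
  have hDR : (((∑ j, d j : ℕ)) : ℝ) = ∑ j, (d j : ℝ) := by push_cast; rfl
  rw [← hDR]
  set D : ℕ := ∑ j, d j with hDdef
  have hNR : (2 : ℝ) ≤ N := by exact_mod_cast hN
  by_cases hD : N + 2 ≤ D
  · obtain ⟨C, hC, hdy⟩ := V.dyadic_count hN F hF hsnc S hS hD (c := c) hε
    rw [← hDdef] at hdy
    set κ : ℝ := (N : ℝ) - 1 / (2 * (D : ℝ)) with hκ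
    have hDR2 : (N : ℝ) + 2 ≤ D := by exact_mod_cast hD
    have h2D : 1 / (2 * (D : ℝ)) ≤ 1 := by
      rw [div_le_one (by linarith)]; linarith
    have hκ1 : 1 ≤ κ := by rw [hκ]; linarith
    have key : ∀ k : ℕ, ∀ B : ℝ, 1 ≤ B → B < 2 ^ k → ∀ X : Finset (Fin (N + 1) → ℤ),
        (∀ x ∈ X, V.IsPrim x ∧ (V.ht x : ℝ) ≤ B ∧ (∀ j, MvPolynomial.eval x (F j) ≠ 0) ∧
          ε * Real.log (V.ht x) + c < V.prox F d S x - (N + 1) * Real.log (V.ht x)) →
        (X.card : ℝ) ≤ 2 * C * B ^ κ := by
      intro k
      induction k with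
      | zero =>
        intro B hB1 hB2
        rw [pow_zero] at hB2
        linarith
      | succ k ih =>
        intro B hB1 hB2 X hX
        have hB0 : 0 < B := by linarith
        have h1 := hdy B hB1 (X.filter (fun x => B < 2 * (V.ht x : ℝ))) (by
          intro x hx
          rw [Finset.mem_filter] at hx
          obtain ⟨a1, a2, a3, a4⟩ := hX x hx.1
          exact ⟨a1, a2, hx.2, a3, a4⟩)
        have h2 : ((X.filter (fun x => ¬ B < 2 * (V.ht x : ℝ))).card : ℝ) ≤ C * B ^ κ := by
          by_cases hB3 : B / 2 < 1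
          · have : X.filter (fun x => ¬ B < 2 * (V.ht x : ℝ)) = ∅ := by
              rw [Finset.filter_eq_empty_iff]
              intro x hx hcon
              have := (hX x hx).1.one_le
              linarith
            rw [this, Finset.card_empty, Nat.cast_zero]
            positivity
          · push Not at hB3
            have h3 := ih (B / 2) hB3 (by rw [pow_succ] at hB2; linarith)
              (X.filter (fun x => ¬ B < 2 * (V.ht x : ℝ))) (by
                intro x hx
                rw [Finset.mem_filter] at hx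
                obtain ⟨a1, a2, a3, a4⟩ := hX x hx.1
                exact ⟨a1, by linarith [hx.2], a3, a4⟩)
            refine h3.trans ?_
            have h4 : (B / 2) ^ κ ≤ B ^ κ / 2 := by
              rw [Real.div_rpow hB0.le (by norm_num)]
              have h5 : (2 : ℝ) ≤ 2 ^ κ := by
                calc (2 : ℝ) = 2 ^ (1 : ℝ) := (Real.rpow_one 2).symm
                  _ ≤ 2 ^ κ := Real.rpow_le_rpow_of_exponent_le (by norm_num) hκ1
              exact div_le_div_of_nonneg_left (by positivity) (by norm_num) h5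
            have h6 : 2 * C * (B / 2) ^ κ ≤ 2 * C * (B ^ κ / 2) :=
              mul_le_mul_of_nonneg_left h4 (by positivity)
            linarith
        have h3 := Finset.card_filter_add_card_filter_not (s := X)
          (fun x => B < 2 * (V.ht x : ℝ))
        have h4 : (X.card : ℝ) = ((X.filter (fun x => B < 2 * (V.ht x : ℝ))).card : ℝ) +
            ((X.filter (fun x => ¬ B < 2 * (V.ht x : ℝ))).card : ℝ) := by
          exact_mod_cast h3.symm
        linarith
    refine ⟨2 * C, by positivity, fun B hB => ?_⟩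
    refine V.ncard_le_of_finset _ _ fun X hX => ?_
    obtain ⟨k, hk⟩ := pow_unbounded_of_one_lt B (by norm_num : (1 : ℝ) < 2)
    exact key k B hB hk X fun x hx => hX hx
  · -- degree at most `N + 1`
    push Not at hD
    have hDR2 : (D : ℝ) ≤ N + 1 := by exact_mod_cast (by omega : D ≤ N + 1)
    set κ : ℝ := (N : ℝ) - 1 / (2 * (D : ℝ)) with hκ
    have hκ0 : 0 ≤ κ := by
      rcases Nat.eq_zero_or_pos D with h0 | hpos
      · rw [hκ, h0]
        simp
      · have h1 : (1 : ℝ) ≤ D := by exact_mod_cast hpos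
        have h2 : 1 / (2 * (D : ℝ)) ≤ 1 := by
          rw [div_le_one (by linarith)]; linarith
        rw [hκ]; linarith
    set H1 : ℝ := Real.exp (|c| / ε) with hH1
    have hH11 : 1 ≤ H1 := Real.one_le_exp (by positivity)
    refine ⟨(3 * H1) ^ (N + 1), by positivity, fun B hB => ?_⟩
    refine V.ncard_le_of_finset _ _ fun X hX => ?_
    have hbox : ∀ x ∈ X, ∀ i, |(x i : ℝ)| ≤ H1 := by
      intro x hx i
      obtain ⟨hprim, hxB, hne, hviol⟩ := hX hx
      have hp : V.IsPrim x := hprim
      have hx1 : (1 : ℝ) ≤ V.ht x := hp.one_le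
      have hx0 : (0 : ℝ) < V.ht x := by linarith
      refine (V.abs_le_ht x i).trans ?_
      have h1 := V.prod_eq_exp F d S hS x hx1 hne
      have hne' : MvPolynomial.eval x (∏ j, F j) ≠ 0 := by
        rw [map_prod]
        exact Finset.prod_ne_zero_iff.2 fun j _ => hne j
      have h2 := Pool.Agent.H951R3.W.prod_padic_int S hS _ hne'
      rw [h1, Real.one_le_exp_iff, ← hDR] at h2
      have hviol' : ε * Real.log (V.ht x) + c <
          V.prox F d S x - (N + 1) * Real.log (V.ht x) := hviol
      have hlog : 0 ≤ Real.log (V.ht x) := Real.log_nonneg hx1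
      have h3 : (D : ℝ) * Real.log (V.ht x) ≤ (N + 1) * Real.log (V.ht x) :=
        mul_le_mul_of_nonneg_right hDR2 hlog
      have h4 : ε * Real.log (V.ht x) ≤ |c| := by
        have := neg_abs_le c
        linarith
      rw [hH1, ← Real.log_le_iff_le_exp hx0, le_div_iff₀ hε]
      linarith
    have h1 := V.box_card hH11 X hbox
    refine h1.trans ?_
    have h2 : 1 ≤ B ^ κ := Real.one_le_rpow hB hκ0
    exact le_mul_of_one_le_right (by positivity) h2

end Pool.Agent.Results.MP_71c16a_nt.RationalPointsSnc
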